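import Pool.Agent.X109.OC.Step

/-!
# Convolution on `ℓ₁(G)` is not uniformly open for any infinite group `G`

This settles Q2 of the problem in the negative: in fact for every infinite group `G`
(in particular for every infinite group of bounded exponent) the multiplication of the Banach
algebra `ℓ₁(G)` is not uniformly open.
-/

namespace Pool.Agent.Results.MP_09b497_an.NotUniformlyOpen

open X109.OC H937R3

universe u

/-- Membership of `ℓ₁(G)`: the complex function `f` on `G` is absolutely summable. -/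
def IsL1 {G : Type u} (f : G → ℂ) : Prop := Summable fun x => ‖f x‖

/-- The norm `‖f‖₁ = ∑ |f(g)|`. -/
noncomputable def nrm {G : Type u} (f : G → ℂ) : ℝ := ∑' x, ‖f x‖

/-- Convolution `(f * h)(x) = ∑_y f(y) h(y⁻¹x)`. -/
noncomputable def conv {G : Type u} [Group G] (f h : G → ℂ) : G → ℂ :=
  fun x => ∑' y, f y * h (y⁻¹ * x)

/-- The unit of `ℓ₁(G)`: the function that is `1` at the identity and `0` elsewhere. -/
def IsUnit1 {G : Type u} [Group G] (e : G → ℂ) : Prop := e 1 = 1 ∧ ∀ x, x ≠ 1 → e x = 0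

/-- `ℓ₁(G)` has uniformly open multiplication: for every `ε > 0` there is `δ > 0` such that
`B(ab, δ) ⊆ B(a, ε) · B(b, ε)` for all `a, b ∈ ℓ₁(G)`. -/
def UniformlyOpen (G : Type u) [Group G] : Prop :=
  ∀ ε : ℝ, 0 < ε → ∃ δ : ℝ, 0 < δ ∧ ∀ a b c : G → ℂ, IsL1 a → IsL1 b → IsL1 c →
    nrm (c - conv a b) < δ →
    ∃ x y : G → ℂ, IsL1 x ∧ IsL1 y ∧ nrm (x - a) < ε ∧ nrm (y - b) < ε ∧ conv x y = c

section bridge

variable {G : Type u}

/-- An absolutely summable function as an element of the Banach algebra `EllOne G`. -/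
noncomputable def toE (f : G → ℂ) (hf : IsL1 f) : EllOne G :=
  (⟨f, by
    refine memℓp_gen ?_
    simpa using (show Summable fun x => ‖f x‖ from hf)⟩ : L1 G)

lemma coeff_toE (f : G → ℂ) (hf : IsL1 f) (x : G) : EllOne.coeff (toE f hf) x = f x := rfl

lemma isL1_coeff (f : EllOne G) : IsL1 (EllOne.coeff f) := L1.summable_norm f

lemma ext_coeff {f g : EllOne G} (h : ∀ x, EllOne.coeff f x = EllOne.coeff g x) : f = g :=
  Subtype.ext (funext h)

end bridge

/-- The strong form: for every infinite group `G` and all `ε, δ > 0` there is `b ∈ ℓ₁(G)` such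
that `B(0, ε) · B(b, ε)` does not contain the multiple `δ • 1` of the unit. -/
theorem strong (G : Type u) [Group G] [Infinite G] (ε δ : ℝ) (hε : 0 < ε) (hδ : 0 < δ) :
    ∃ b : G → ℂ, IsL1 b ∧ ∀ x y : G → ℂ, IsL1 x → IsL1 y → nrm x < ε → nrm (y - b) < ε →
      ∀ e : G → ℂ, IsUnit1 e → conv x y ≠ (δ : ℂ) • e := by
  classical
  -- a very spread out isometric element
  obtain ⟨n, hn⟩ := exists_pow_lt_of_lt_one (show (0 : ℝ) < δ / (6 * ε ^ 2 + 1) by positivity)
    (show (999 / 1000 : ℝ) < 1 by norm_num)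
  obtain ⟨u, hu, hun⟩ := small (G := G) n
  refine ⟨EllOne.coeff (((3 * ε : ℝ) : ℂ) • u), isL1_coeff _, ?_⟩
  intro x y hx hy hxn hyn e he hxy
  set X := toE x hx with hX
  set Y := toE y hy with hY
  have h3 : (((3 * ε : ℝ) : ℂ)) ≠ 0 := by
    exact_mod_cast (by positivity : (3 * ε : ℝ) ≠ 0)
  have hδ' : (δ : ℂ) ≠ 0 := by exact_mod_cast hδ.ne'
  have hXn : ‖X‖ < ε := by
    rw [EllOne.norm_eq]; exact hxn
  have hYn : ‖Y - ((3 * ε : ℝ) : ℂ) • u‖ < ε := by
    rw [EllOne.norm_eq]; exact hyn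
  have hXY : X * Y = (δ : ℂ) • (1 : EllOne G) := by
    refine ext_coeff fun g => ?_
    have h4 : EllOne.coeff (X * Y) g = conv x y g := EllOne.conv_apply X Y g
    rw [h4, hxy, coeff_smul, coeff_one]
    simp only [Pi.smul_apply, smul_eq_mul]
    split_ifs with h
    · rw [h, he.1]
    · rw [he.2 g h]
  set z : EllOne G := (((3 * ε : ℝ) : ℂ) * (δ : ℂ)⁻¹) • X with hz
  set r : EllOne G := (((3 * ε : ℝ) : ℂ))⁻¹ • (Y - ((3 * ε : ℝ) : ℂ) • u) with hr
  have hr1 : ‖r‖ ≤ 1 / 3 := by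
    rw [hr, norm_smul, norm_inv, Complex.norm_real, Real.norm_of_nonneg (by positivity)]
    calc (3 * ε)⁻¹ * ‖Y - ((3 * ε : ℝ) : ℂ) • u‖ ≤ (3 * ε)⁻¹ * ε := by gcongr
      _ = 1 / 3 := by field_simp
  have hzr : z * (u + r) = 1 := by
    have h5 : u + r = (((3 * ε : ℝ) : ℂ))⁻¹ • Y := by
      rw [hr, smul_sub, smul_smul, inv_mul_cancel₀ h3, one_smul]; abel
    rw [h5, hz, smul_mul_smul_comm, hXY, smul_smul]
    have h6 : ((3 * ε : ℝ) : ℂ) * (δ : ℂ)⁻¹ * (((3 * ε : ℝ) : ℂ))⁻¹ * (δ : ℂ) = 1 := by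
      field_simp
    rw [h6, one_smul]
  have hzn : ‖z‖ ≤ 3 * ε * δ⁻¹ * ε := by
    rw [hz, norm_smul, norm_mul, norm_inv, Complex.norm_real, Complex.norm_real,
      Real.norm_of_nonneg hδ.le, Real.norm_of_nonneg (by positivity : (0 : ℝ) ≤ 3 * ε)]
    gcongr
  have h7 := big hu hr1 hzr _ hun
  have h8 : ‖z‖ * (999 / 1000 : ℝ) ^ n < 1 / 2 := by
    calc ‖z‖ * (999 / 1000 : ℝ) ^ n ≤ (3 * ε * δ⁻¹ * ε) * (999 / 1000 : ℝ) ^ n := by gcongr
      _ < (3 * ε * δ⁻¹ * ε) * (δ / (6 * ε ^ 2 + 1)) := by gcongr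
      _ = (3 * ε ^ 2) / (6 * ε ^ 2 + 1) := by field_simp
      _ < 1 / 2 := by
        rw [div_lt_div_iff₀ (by positivity) (by norm_num)]
        nlinarith [sq_nonneg ε]
  linarith

/-- Main theorem: `ℓ₁(G)` does not have uniformly open multiplication, for any infinite
group `G`, whether or not `G` has bounded exponent. -/
theorem result : ∀ (G : Type u) [Group G] [Infinite G], ¬ UniformlyOpen G := by
  intro G _ _ h
  classical
  obtain ⟨δ, hδ, H⟩ := h 1 one_pos
  obtain ⟨b, hb, hbad⟩ := strong G 1 (δ / 2) one_pos (by positivity)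
  set e : G → ℂ := EllOne.coeff (1 : EllOne G) with he
  have he1 : IsUnit1 e := by
    refine ⟨?_, fun x hx => ?_⟩
    · rw [he, coeff_one, if_pos rfl]
    · rw [he, coeff_one, if_neg hx]
  set c : G → ℂ := EllOne.coeff (((δ / 2 : ℝ) : ℂ) • (1 : EllOne G)) with hc
  have h0 : IsL1 (0 : G → ℂ) := by
    unfold IsL1; simp
  have hcn : nrm (c - conv 0 b) < δ := by
    have h1 : c - conv 0 b = c := by
      funext x; simp [conv]
    rw [h1]
    have h2 : nrm c = ‖((δ / 2 : ℝ) : ℂ) • (1 : EllOne G)‖ := (EllOne.norm_eq _).symm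
    rw [h2, norm_smul, norm_one, mul_one, Complex.norm_real,
      Real.norm_of_nonneg (by positivity)]
    linarith
  obtain ⟨x, y, hx, hy, hxn, hyn, hxy⟩ := H 0 b c h0 hb (isL1_coeff _) hcn
  rw [sub_zero] at hxn
  exact hbad x y hx hy hxn hyn e he1 hxy

end Pool.Agent.Results.MP_09b497_an.NotUniformlyOpen
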